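import Pool.Agent.Q80.KT.Stm
import Pool.Agent.TH272.WH.Main

set_option autoImplicit false

/-! Project KT, job T1: expected number of tree components on a given vertex set. -/

open Finset
open scoped Classical

noncomputable section

namespace Q223.KT.T1

open Pool.Agent.Q80.KT Pool.Agent.Q287.SR

/-- the pairs meeting `S` -/
def Dp {n : ℕ} (S : Finset (Fin n)) : Finset (Sym2 (Fin n)) :=
  (pairs n).filter fun e => ∃ a ∈ e, a ∈ S

lemma mem_pairs {n : ℕ} (a b : Fin n) : s(a, b) ∈ pairs n ↔ a ≠ b := by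
  simp [pairs]

lemma mem_Dp {n : ℕ} (S : Finset (Fin n)) (a b : Fin n) :
    s(a, b) ∈ Dp S ↔ a ≠ b ∧ (a ∈ S ∨ b ∈ S) := by
  unfold Dp
  rw [Finset.mem_filter, mem_pairs]
  simp

lemma card_Dp {n m : ℕ} (S : Finset (Fin n)) (hS : S.card = m) :
    (Dp S).card = m.choose 2 + m * (n - m) := by
  have h1 : Dp S = S.offDiag.image (Sym2.mk.uncurry) ∪ (S ×ˢ Sᶜ).image (Sym2.mk.uncurry) := by
    ext e
    induction e using Sym2.ind with
    | _ a b =>
      rw [mem_Dp, Finset.mem_union, Finset.mem_image, Finset.mem_image]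
      constructor
      · rintro ⟨hab, h⟩
        by_cases ha : a ∈ S
        · by_cases hb : b ∈ S
          · left; exact ⟨(a, b), by simp [ha, hb, hab], rfl⟩
          · right; exact ⟨(a, b), by simp [ha, hb], rfl⟩
        · have hb : b ∈ S := by tauto
          right
          exact ⟨(b, a), by simp [ha, hb], Sym2.eq_swap⟩
      · rintro (⟨⟨x, y⟩, h, he⟩ | ⟨⟨x, y⟩, h, he⟩)
        · simp only [Finset.mem_offDiag] at h
          have he' : s(x, y) = s(a, b) := he
          rw [Sym2.eq_iff] at he'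
          rcases he' with ⟨rfl, rfl⟩ | ⟨rfl, rfl⟩
          · exact ⟨h.2.2, Or.inl h.1⟩
          · exact ⟨fun h' => h.2.2 h'.symm, Or.inr h.1⟩
        · simp only [Finset.mem_product, Finset.mem_compl] at h
          have he' : s(x, y) = s(a, b) := he
          have hxy : x ≠ y := by rintro rfl; exact h.2 h.1
          rw [Sym2.eq_iff] at he'
          rcases he' with ⟨rfl, rfl⟩ | ⟨rfl, rfl⟩
          · exact ⟨hxy, Or.inl h.1⟩
          · exact ⟨fun h' => hxy h'.symm, Or.inr h.1⟩
  rw [h1, Finset.card_union_of_disjoint, Sym2.card_image_offDiag, hS, Finset.card_image_of_injOn,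
    Finset.card_product, Finset.card_compl, hS, Fintype.card_fin]
  · rintro ⟨a, b⟩ hab ⟨c, d⟩ hcd h
    simp only [Finset.coe_product, Set.mem_prod, Finset.mem_coe, Finset.mem_compl] at hab hcd
    have h' : s(a, b) = s(c, d) := h
    rw [Sym2.eq_iff] at h'
    rcases h' with ⟨rfl, rfl⟩ | ⟨rfl, rfl⟩
    · rfl
    · exact absurd hab.1 hcd.2
  · rw [Finset.disjoint_left]
    intro e he hf
    rw [Finset.mem_image] at he hf
    obtain ⟨⟨a, b⟩, hab, rfl⟩ := he
    obtain ⟨⟨c, d⟩, hcd, h⟩ := hf
    simp only [Finset.mem_offDiag] at hab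
    simp only [Finset.mem_product, Finset.mem_compl] at hcd
    have h' : s(c, d) = s(a, b) := h
    rw [Sym2.eq_iff] at h'
    rcases h' with ⟨rfl, rfl⟩ | ⟨rfl, rfl⟩
    · exact hcd.2 hab.2.1
    · exact hcd.2 hab.1

/-- the event that the configuration on the pairs meeting `S` is that of `g` -/
def Ev {n : ℕ} (S : Finset (Fin n)) (g G : SimpleGraph (Fin n)) : Prop :=
  ∀ e ∈ Dp S, (e ∈ G.edgeSet ↔ e ∈ g.edgeSet)

lemma ev_iff {n m : ℕ} (S : Finset (Fin n)) (π : Fin m ≃ ((S : Set (Fin n)) : Type))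
    (ι : Fin m ↪ Fin n) (hι : ∀ i, ι i = (π i : Fin n)) (T : SimpleGraph (Fin m))
    (G : SimpleGraph (Fin n)) :
    Ev S (T.map ι) G ↔
      ((G.induce (S : Set (Fin n))).comap π = T ∧ ∀ a ∈ S, ∀ b, b ∉ S → ¬ G.Adj a b) := by
  have hmem : ∀ i, ι i ∈ S := fun i => by rw [hι]; exact (π i).2
  have hsur : ∀ a ∈ S, ∃ i, ι i = a := by
    intro a ha
    refine ⟨π.symm ⟨a, ha⟩, ?_⟩
    rw [hι, Equiv.apply_symm_apply]
  constructor
  · intro h
    refine ⟨?_, ?_⟩
    · ext i j
      have e1 : ((G.induce (S : Set (Fin n))).comap π).Adj i j ↔ G.Adj (ι i) (ι j) := by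
        rw [hι, hι]; rfl
      rw [e1]
      by_cases hij : i = j
      · subst hij; simp
      · have h1 := h s(ι i, ι j) ((mem_Dp S _ _).2 ⟨fun h' => hij (ι.injective h'), Or.inl (hmem i)⟩)
        rw [SimpleGraph.mem_edgeSet, SimpleGraph.mem_edgeSet, SimpleGraph.map_adj_apply] at h1
        exact h1
    · intro a ha b hb hab
      have h1 := h s(a, b) ((mem_Dp S _ _).2 ⟨hab.ne, Or.inl ha⟩)
      rw [SimpleGraph.mem_edgeSet, SimpleGraph.mem_edgeSet] at h1
      have h2 := h1.1 hab
      rw [SimpleGraph.map_adj] at h2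
      obtain ⟨i, j, -, -, hj⟩ := h2
      exact hb (hj ▸ hmem j)
  · rintro ⟨h1, h2⟩ e he
    have key : ∀ i j, G.Adj (ι i) (ι j) ↔ T.Adj i j := by
      intro i j
      rw [← h1, hι, hι]; rfl
    induction e using Sym2.ind with
    | _ a b =>
      rw [mem_Dp] at he
      rw [SimpleGraph.mem_edgeSet, SimpleGraph.mem_edgeSet]
      by_cases ha : a ∈ S
      · by_cases hb : b ∈ S
        · obtain ⟨i, rfl⟩ := hsur a ha
          obtain ⟨j, rfl⟩ := hsur b hb
          rw [SimpleGraph.map_adj_apply, key]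
        · constructor
          · intro h; exact absurd h (h2 a ha b hb)
          · intro h
            rw [SimpleGraph.map_adj] at h
            obtain ⟨i, j, -, -, hj⟩ := h
            exact absurd (hj ▸ hmem j) hb
      · have hb : b ∈ S := by tauto
        constructor
        · intro h; exact absurd h.symm (h2 b hb a ha)
        · intro h
          rw [SimpleGraph.map_adj] at h
          obtain ⟨i, j, -, hi, -⟩ := h
          exact absurd (hi ▸ hmem i) ha

lemma card_pres {n m : ℕ} (S : Finset (Fin n)) (ι : Fin m ↪ Fin n) (hm : 1 ≤ m)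
    (hmem : ∀ i, ι i ∈ S) (T : SimpleGraph (Fin m)) (hT : T.IsTree) :
    ((Dp S).filter fun e => e ∈ (T.map ι).edgeSet).card = m - 1 := by
  have h1 : ((Dp S).filter fun e => e ∈ (T.map ι).edgeSet) = T.edgeFinset.map ι.sym2Map := by
    ext e
    rw [Finset.mem_filter, Finset.mem_map]
    constructor
    · rintro ⟨-, h⟩
      rw [SimpleGraph.edgeSet_map] at h
      obtain ⟨x, hx, rfl⟩ := h
      exact ⟨x, by simpa using hx, rfl⟩
    · rintro ⟨x, hx, rfl⟩
      have hx' : x ∈ T.edgeSet := by simpa using hx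
      refine ⟨?_, ?_⟩
      · induction x using Sym2.ind with
        | _ i j =>
          have hij : i ≠ j := (SimpleGraph.mem_edgeSet T |>.1 hx').ne
          exact (mem_Dp S _ _).2 ⟨fun h => hij (ι.injective h), Or.inl (hmem i)⟩
      · rw [SimpleGraph.edgeSet_map]
        exact ⟨x, hx', rfl⟩
  rw [h1, Finset.card_map]
  have := hT.card_edgeFinset
  rw [Fintype.card_fin] at this
  omega

lemma choose_ge {m : ℕ} (hm : 1 ≤ m) : m - 1 ≤ m.choose 2 := by
  rcases Nat.lt_or_ge m 2 with h | h
  · have : m = 1 := by omega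
    subst this; simp
  · rw [Nat.choose_two_right, Nat.le_div_iff_mul_le (by norm_num), mul_comm]
    exact Nat.mul_le_mul_right _ h

theorem t_T1 (h1 : S_CONF) : S_T1 := by
  intro n m p S hm hS
  have hc : Fintype.card ((S : Set (Fin n)) : Type) = m := by simp [hS]
  let π : Fin m ≃ ((S : Set (Fin n)) : Type) := (Fintype.equivFinOfCardEq hc).symm
  let ι : Fin m ↪ Fin n := π.toEmbedding.trans (Function.Embedding.subtype _)
  have hι : ∀ i, ι i = (π i : Fin n) := fun i => rfl
  have hmem : ∀ i, ι i ∈ S := fun i => by rw [hι]; exact (π i).2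
  set Tr : Finset (SimpleGraph (Fin m)) := univ.filter fun T => T.IsTree with hTr
  have hcard : Tr.card = m ^ (m - 2) := by
    rw [← Pool.Agent.TH272.WH.card_trees_eq hm, ← Set.ncard_coe_finset]
    congr 1
    ext T
    simp [hTr]
  have hiso : ∀ G : SimpleGraph (Fin n),
      (G.induce (S : Set (Fin n))).IsTree ↔ ((G.induce (S : Set (Fin n))).comap π).IsTree :=
    fun G => (SimpleGraph.Iso.comap π (G.induce (S : Set (Fin n)))).isTree_iff.symm
  have hsum : ∀ G : SimpleGraph (Fin n),
      ind (TreeComp G S) = ∑ T ∈ Tr, ind (Ev S (T.map ι) G) := by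
    intro G
    by_cases h : TreeComp G S
    · have hT : (G.induce (S : Set (Fin n))).comap π ∈ Tr := by
        rw [hTr, Finset.mem_filter]
        exact ⟨mem_univ _, (hiso G).1 h.1⟩
      rw [Finset.sum_eq_single_of_mem _ hT]
      · unfold ind
        rw [if_pos h, if_pos ((ev_iff S π ι hι _ G).2 ⟨rfl, h.2⟩)]
      · intro T _ hne
        unfold ind
        rw [if_neg]
        intro hE
        exact hne ((ev_iff S π ι hι _ G).1 hE).1.symm
    · rw [Finset.sum_eq_zero]
      · unfold ind
        rw [if_neg h]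
      · intro T hT
        unfold ind
        rw [if_neg]
        intro hE
        have hE' := (ev_iff S π ι hι _ G).1 hE
        apply h
        refine ⟨?_, hE'.2⟩
        rw [hiso, hE'.1]
        rw [hTr, Finset.mem_filter] at hT
        exact hT.2
  have hval : ∀ T ∈ Tr, Ex n p (fun G => ind (Ev S (T.map ι) G)) =
      p ^ (m - 1) * (1 - p) ^ (m.choose 2 - (m - 1) + m * (n - m)) := by
    intro T hT
    rw [hTr, Finset.mem_filter] at hT
    have h := h1 n p (Dp S) (T.map ι) (Finset.filter_subset _ _)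
    have hp := card_pres S ι hm hmem T hT.2
    have hn : ((Dp S).filter fun e => e ∉ (T.map ι).edgeSet).card =
        m.choose 2 - (m - 1) + m * (n - m) := by
      have e1 := Finset.card_filter_add_card_filter_not (s := Dp S) (fun e => e ∈ (T.map ι).edgeSet)
      rw [hp, card_Dp S hS] at e1
      have e2 := choose_ge hm
      omega
    have e3 : Pr n p (fun G => ∀ e ∈ Dp S, (e ∈ G.edgeSet ↔ e ∈ (T.map ι).edgeSet)) =
        p ^ (m - 1) * (1 - p) ^ (m.choose 2 - (m - 1) + m * (n - m)) := by
      rw [h, ← hn, ← hp]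
      congr!
    exact e3
  have : Pr n p (fun G => TreeComp G S) = ∑ T ∈ Tr, Ex n p (fun G => ind (Ev S (T.map ι) G)) := by
    unfold Pr
    rw [← Ex_sum]
    congr 1
    funext G
    exact hsum G
  rw [this, Finset.sum_congr rfl hval, Finset.sum_const, hcard, nsmul_eq_mul]
  push_cast
  ring

end Q223.KT.T1
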